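import Pool.Agent.Run7.h601.ZN.Stm

/-!
# Project ZN, piece BUR: Burnside's count for the words of given content
-/

set_option autoImplicit false

namespace Pool.Agent.Run7.h601.ZN

open Finset

theorem bur_exists {n : ℕ} {ι : Type} [Fintype ι] [DecidableEq ι] (A : ι → ℕ)
    (hA : ∑ i, A i = n) : ∃ w0 : Fin n → ι, ∀ i, cnt w0 i = A i := by
  have hc : Fintype.card (Fin n) = Fintype.card (Σ i, Fin (A i)) := by
    rw [Fintype.card_sigma]; simp [hA]
  let e := Fintype.equivOfCardEq hc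
  refine ⟨fun x => (e x).1, fun i => ?_⟩
  unfold cnt
  have h1 : (univ.filter (fun x => (e x).1 = i)).card = Fintype.card {x : Fin n // (e x).1 = i} := by
    rw [Fintype.card_subtype]
  rw [h1]
  have h2 : {x : Fin n // (e x).1 = i} ≃ Fin (A i) :=
    (e.subtypeEquiv (fun x => Iff.rfl)).trans (Equiv.sigmaSubtype i)
  rw [Fintype.card_congr h2]; simp

theorem bur_perm {n : ℕ} {ι : Type} [Fintype ι] [DecidableEq ι] (w0 w : Fin n → ι)
    (h : ∀ i, cnt w i = cnt w0 i) : ∃ ρ : Equiv.Perm (Fin n), ∀ x, w0 (ρ x) = w x := by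
  have e : ∀ i, Nonempty ({x // w x = i} ≃ {x // w0 x = i}) := by
    intro i
    refine ⟨Fintype.equivOfCardEq ?_⟩
    rw [Fintype.card_subtype, Fintype.card_subtype]
    exact h i
  let e' : ∀ i, {x // w x = i} ≃ {x // w0 x = i} := fun i => (e i).some
  exact ⟨Equiv.ofFiberEquiv e', fun x => Equiv.ofFiberEquiv_map e' x⟩

theorem bur_cnt {n : ℕ} {ι : Type} [DecidableEq ι] (w0 : Fin n → ι)
    (ρ : Equiv.Perm (Fin n)) (i : ι) : cnt (fun x => w0 (ρ x)) i = cnt w0 i := by
  unfold cnt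
  refine Finset.card_bij (fun x _ => ρ x) ?_ ?_ ?_
  · intro x hx; simpa using hx
  · intro x _ y _ hxy; exact ρ.injective hxy
  · intro y hy
    exact ⟨ρ.symm y, by simpa using hy, by simp⟩

theorem t_BUR : S_BUR := by
  classical
  intro n ι _ _ A hA
  obtain ⟨w0, hw0⟩ := bur_exists A hA
  -- number of permutations carrying `w0` to `w`
  have key : ∀ w : Fin n → ι, (∀ i, cnt w i = A i) →
      (univ.filter (fun σ : Equiv.Perm (Fin n) => ∀ x, w (σ x) = w x)).card =
        (univ.filter (fun ρ : Equiv.Perm (Fin n) => (fun x => w0 (ρ x)) = w)).card := by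
    intro w hw
    obtain ⟨ρ0, hρ0⟩ := bur_perm w0 w (fun i => by rw [hw, hw0])
    refine Finset.card_bij (fun σ _ => ρ0 * σ) ?_ ?_ ?_
    · intro σ hσ
      rw [mem_filter] at hσ ⊢
      refine ⟨mem_univ _, funext fun x => ?_⟩
      rw [Equiv.Perm.mul_apply, hρ0, hσ.2]
    · intro σ _ σ' _ hh
      exact mul_left_cancel hh
    · intro ρ hρ
      rw [mem_filter] at hρ
      refine ⟨ρ0⁻¹ * ρ, ?_, by simp⟩
      rw [mem_filter]
      refine ⟨mem_univ _, fun x => ?_⟩
      rw [← hρ0, ← congrFun hρ.2 x, Equiv.Perm.mul_apply]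
      simp
  have h1 : ∀ σ : Equiv.Perm (Fin n), (univ.filter (fun w : Fin n → ι =>
      (∀ i, cnt w i = A i) ∧ ∀ x, w (σ x) = w x)).card =
      ∑ w ∈ univ.filter (fun w : Fin n → ι => ∀ i, cnt w i = A i),
        if (∀ x, w (σ x) = w x) then 1 else 0 := by
    intro σ
    rw [← Finset.card_filter, Finset.filter_filter]
  rw [Finset.sum_congr rfl fun σ _ => h1 σ, Finset.sum_comm]
  have h2 : ∀ w ∈ univ.filter (fun w : Fin n → ι => ∀ i, cnt w i = A i),
      (∑ σ : Equiv.Perm (Fin n), if (∀ x, w (σ x) = w x) then 1 else 0) =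
      (univ.filter (fun ρ : Equiv.Perm (Fin n) => (fun x => w0 (ρ x)) = w)).card := by
    intro w hw
    rw [← Finset.card_filter]
    exact key w (mem_filter.1 hw).2
  rw [Finset.sum_congr rfl h2, ← Finset.card_eq_sum_card_fiberwise]
  · rw [Finset.card_univ, Fintype.card_perm, Fintype.card_fin]
  · intro ρ _
    simp only [coe_filter, mem_univ, true_and, Set.mem_ofPred_eq]
    intro i
    rw [bur_cnt, hw0]

end Pool.Agent.Run7.h601.ZN
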