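import Pool.Agent.Run7.h601.ZN.Stm

/-!
# Project ZN, piece COR: the weight in terms of the residue counts
-/

set_option autoImplicit false

namespace Pool.Agent.Run7.h601.ZN

open Finset

/-- sum over the beads of a function of the residue -/
theorem cor_fib {k : ℕ} (p : ℕ) (hp : 0 < p) (l : Fin k → ℕ) (f : ℕ → ℤ) :
    ∑ a, f (l a % p) = ∑ j ∈ range p, ((univ.filter (fun a => l a % p = j)).card : ℤ) * f j := by
  rw [← Finset.sum_fiberwise_of_maps_to (s := (univ : Finset (Fin k))) (t := range p)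
    (g := fun a => l a % p) (fun a _ => mem_range.2 (Nat.mod_lt _ hp))]
  refine Finset.sum_congr rfl fun j _ => ?_
  rw [Finset.sum_congr rfl (g := fun _ => f j)]
  · simp
  · intro a ha
    rw [(mem_filter.1 ha).2]

/-- pairs of beads in the same residue class -/
theorem cor_pairs {k : ℕ} (p : ℕ) (l : Fin k → ℕ) :
    2 * ∑ a, ((((Iio a).filter (fun b => l b % p = l a % p)).card : ℕ) : ℤ) + k =
      ∑ a, ((univ.filter (fun b => l b % p = l a % p)).card : ℤ) := by
  have h1 : ∀ a : Fin k, ((((Iio a).filter (fun b => l b % p = l a % p)).card : ℕ) : ℤ) =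
      ∑ b, if (b < a ∧ l b % p = l a % p) then (1 : ℤ) else 0 := by
    intro a
    have : (Iio a).filter (fun b => l b % p = l a % p) =
        univ.filter (fun b => b < a ∧ l b % p = l a % p) := by
      ext b; simp
    rw [this, Finset.card_filter]; push_cast; rfl
  have h2 : ∑ a, ((((Iio a).filter (fun b => l b % p = l a % p)).card : ℕ) : ℤ) =
      ∑ a, ∑ b, if (a < b ∧ l b % p = l a % p) then (1 : ℤ) else 0 := by
    rw [Finset.sum_congr rfl (fun a _ => h1 a), Finset.sum_comm]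
    refine Finset.sum_congr rfl fun a _ => Finset.sum_congr rfl fun b _ => ?_
    by_cases hab : a < b
    · simp only [hab, true_and]
      by_cases h : l a % p = l b % p
      · rw [if_pos h, if_pos h.symm]
      · rw [if_neg h, if_neg (fun h' => h h'.symm)]
    · simp [hab]
  have h3 : (k : ℤ) = ∑ a : Fin k, ∑ b : Fin k, if b = a then (1 : ℤ) else 0 := by
    simp
  rw [two_mul]
  nth_rewrite 2 [h2]
  rw [Finset.sum_congr rfl (fun a _ => h1 a)]
  nth_rewrite 1 [h3]
  rw [← Finset.sum_add_distrib, ← Finset.sum_add_distrib]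
  refine Finset.sum_congr rfl fun a _ => ?_
  rw [← Finset.sum_add_distrib, ← Finset.sum_add_distrib, Finset.card_filter]
  push_cast
  refine Finset.sum_congr rfl fun b _ => ?_
  rcases lt_trichotomy a b with h | h | h
  · simp [h, h.not_gt, h.ne']
  · subst h; simp
  · simp [h, h.not_gt, h.ne]

theorem t_COR : S_COR := by
  intro n k p l hp hpk hl
  obtain ⟨K, hK⟩ := hpk
  have hkp : k / p = K := by rw [hK, Nat.mul_div_cancel_left _ hp]
  set N : ℕ → ℤ := fun j => ((univ.filter (fun a => l a % p = j)).card : ℤ) with hN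
  have hc : ∀ j, cc p l j = N j - K := by
    intro j; simp only [cc, hkp, hN]
  have g1 : ∑ j ∈ range p, N j = (k : ℤ) := by
    have := cor_fib p hp l (fun _ => 1)
    simp only [mul_one] at this
    rw [← this]; simp
  have g2 : ∑ a, ((l a % p : ℕ) : ℤ) = ∑ j ∈ range p, N j * (j : ℤ) :=
    cor_fib p hp l (fun j => (j : ℤ))
  have g3 : ∑ a, N (l a % p) = ∑ j ∈ range p, N j * N j := cor_fib p hp l N
  have g4 := cor_pairs p l
  have g5 : (p : ℤ) * (∑ a, ((l a / p : ℕ) : ℤ)) = ∑ a, (l a : ℤ) - ∑ a, ((l a % p : ℕ) : ℤ) := by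
    rw [Finset.mul_sum, ← Finset.sum_sub_distrib]
    refine Finset.sum_congr rfl fun a _ => ?_
    have := Nat.div_add_mod (l a) p
    have h : (p : ℤ) * ((l a / p : ℕ) : ℤ) + ((l a % p : ℕ) : ℤ) = (l a : ℤ) := by
      exact_mod_cast this
    linarith
  have g6 : (∑ a, (l a : ℤ)) = n + ((k.choose 2 : ℕ) : ℤ) := by
    exact_mod_cast hl
  have g7 : 2 * ((k.choose 2 : ℕ) : ℤ) = (k : ℤ) * k - k := by
    have h := Nat.choose_two_right k
    have h2 : 2 * k.choose 2 = k * (k - 1) := by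
      rw [h, Nat.mul_div_cancel' (Nat.even_mul_pred_self k).two_dvd]
    rcases Nat.eq_zero_or_pos k with h0 | h0
    · subst h0; simp
    · have h3 : ((2 * k.choose 2 : ℕ) : ℤ) = ((k * (k - 1) : ℕ) : ℤ) := by rw [h2]
      rw [Nat.cast_mul, Nat.cast_mul, Nat.cast_sub h0] at h3
      push_cast at h3 ⊢
      linarith
  have g8 : 2 * ∑ j ∈ range p, (j : ℤ) = (p : ℤ) * p - p := by
    have h := Finset.sum_range_id_mul_two p
    rcases Nat.eq_zero_or_pos p with h0 | h0
    · omega
    · have h3 : (((∑ i ∈ range p, i) * 2 : ℕ) : ℤ) = ((p * (p - 1) : ℕ) : ℤ) := by rw [h]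
      rw [Nat.cast_mul, Nat.cast_mul, Nat.cast_sub h0] at h3
      push_cast at h3 ⊢
      linarith
  have g9 : ∑ j ∈ range p, (j : ℤ) * cc p l j = ∑ j ∈ range p, N j * (j : ℤ) -
      K * ∑ j ∈ range p, (j : ℤ) := by
    rw [Finset.mul_sum, ← Finset.sum_sub_distrib]
    refine Finset.sum_congr rfl fun j _ => ?_
    rw [hc]; ring
  have g10 : dd p l = ∑ j ∈ range p, N j * N j - 2 * K * ∑ j ∈ range p, N j + p * K ^ 2 := by
    have : (p : ℤ) * (K : ℤ) ^ 2 = ∑ j ∈ range p, (K : ℤ) ^ 2 := by simp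
    rw [this, Finset.mul_sum, ← Finset.sum_sub_distrib, ← Finset.sum_add_distrib]
    refine Finset.sum_congr rfl fun j _ => ?_
    rw [hc]; ring
  have g11 : (k : ℤ) = p * K := by exact_mod_cast hK
  have g12 : 2 * ∑ a, ((((Iio a).filter (fun b => l b % p = l a % p)).card : ℕ) : ℤ) + k =
      ∑ j ∈ range p, N j * N j := by
    rw [g4, ← g3]
  rw [g9, g10, g1]
  unfold wt
  set W1 := ∑ a, ((l a / p : ℕ) : ℤ)
  set W2 := ∑ a, ((((Iio a).filter (fun b => l b % p = l a % p)).card : ℕ) : ℤ)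
  set Q := ∑ j ∈ range p, N j * N j
  set R := ∑ j ∈ range p, N j * (j : ℤ)
  set T := ∑ j ∈ range p, (j : ℤ)
  rw [g2, g6] at g5
  linear_combination 2 * g5 - (p : ℤ) * g12 + g7 - K * g8 + (k + p - p * K - 1) * g11

end Pool.Agent.Run7.h601.ZN
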