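import Pool.Agent.Run7.h601.ZN.Stm

/-!
# Project ZN, piece INN: inner product of two word characters
-/

set_option autoImplicit false

namespace Pool.Agent.Run7.h601.ZN

open Finset

theorem inn_row {n k : ℕ} (v : Fin n → Fin k × Fin k) (i : Fin k) :
    ∑ j, cnt v (i, j) = cnt (fun x => (v x).1) i := by
  unfold cnt
  rw [Finset.card_eq_sum_card_fiberwise (f := fun x => (v x).2) (t := univ)
    (fun x _ => by simp)]
  refine Finset.sum_congr rfl fun j _ => ?_
  rw [Finset.filter_filter]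
  congr 1
  ext x
  simp [Prod.ext_iff]

theorem inn_col {n k : ℕ} (v : Fin n → Fin k × Fin k) (j : Fin k) :
    ∑ i, cnt v (i, j) = cnt (fun x => (v x).2) j := by
  unfold cnt
  rw [Finset.card_eq_sum_card_fiberwise (f := fun x => (v x).1) (t := univ)
    (fun x _ => by simp)]
  refine Finset.sum_congr rfl fun i _ => ?_
  rw [Finset.filter_filter]
  congr 1
  ext x
  simp [Prod.ext_iff, and_comm]

theorem inn_tot {n : ℕ} {ι : Type} [Fintype ι] [DecidableEq ι] (v : Fin n → ι) :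
    ∑ i, cnt v i = n := by
  unfold cnt
  rw [← Finset.card_eq_sum_card_fiberwise (f := v) (s := univ) (t := univ) (fun x _ => by simp)]
  simp

theorem inn_pairs {n k : ℕ} (α β : Fin k → ℤ) (σ : Equiv.Perm (Fin n)) :
    fixW α σ * fixW β σ = ∑ A ∈ (piAntidiag (univ : Finset (Fin k × Fin k)) n).filter
      (fun A : Fin k × Fin k → ℕ => (∀ i, ((∑ j, A (i, j) : ℕ) : ℤ) = α i) ∧
        (∀ j, ((∑ i, A (i, j) : ℕ) : ℤ) = β j)),
      ((univ.filter (fun v : Fin n → Fin k × Fin k =>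
        (∀ i, cnt v i = A i) ∧ ∀ x, v (σ x) = v x)).card : ℤ) := by
  classical
  unfold fixW
  rw [← Nat.cast_mul, ← Finset.card_product, ← Nat.cast_sum]
  congr 1
  have h1 : ((univ.filter (fun w : Fin n → Fin k =>
      (∀ i, (cnt w i : ℤ) = α i) ∧ ∀ x, w (σ x) = w x)) ×ˢ
      (univ.filter (fun w : Fin n → Fin k =>
      (∀ i, (cnt w i : ℤ) = β i) ∧ ∀ x, w (σ x) = w x))).card =
      (univ.filter (fun v : Fin n → Fin k × Fin k =>
        ((∀ i, ((cnt (fun x => (v x).1) i : ℕ) : ℤ) = α i) ∧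
        (∀ j, ((cnt (fun x => (v x).2) j : ℕ) : ℤ) = β j)) ∧ ∀ x, v (σ x) = v x)).card := by
    refine Finset.card_bij (fun w _ => fun x => (w.1 x, w.2 x)) ?_ ?_ ?_
    · rintro ⟨w, w'⟩ h
      simp only [mem_product, mem_filter, mem_univ, true_and] at h
      simp only [mem_filter, mem_univ, true_and]
      exact ⟨⟨h.1.1, h.2.1⟩, fun x => by rw [h.1.2, h.2.2]⟩
    · rintro ⟨w, w'⟩ _ ⟨v, v'⟩ _ h
      have h1 : w = v := funext fun x => (Prod.ext_iff.1 (congrFun h x)).1
      have h2 : w' = v' := funext fun x => (Prod.ext_iff.1 (congrFun h x)).2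
      rw [h1, h2]
    · intro v hv
      simp only [mem_filter, mem_univ, true_and] at hv
      refine ⟨(fun x => (v x).1, fun x => (v x).2), ?_, rfl⟩
      simp only [mem_product, mem_filter, mem_univ, true_and]
      exact ⟨⟨hv.1.1, fun x => by rw [hv.2]⟩, ⟨hv.1.2, fun x => by rw [hv.2]⟩⟩
  rw [h1, Finset.card_eq_sum_card_fiberwise (f := fun v => fun i => cnt v i)
    (t := (piAntidiag (univ : Finset (Fin k × Fin k)) n).filter
      (fun A : Fin k × Fin k → ℕ => (∀ i, ((∑ j, A (i, j) : ℕ) : ℤ) = α i) ∧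
        (∀ j, ((∑ i, A (i, j) : ℕ) : ℤ) = β j)))]
  · refine Finset.sum_congr rfl fun A hA => ?_
    rw [mem_filter] at hA
    rw [Finset.filter_filter]
    congr 1
    ext v
    simp only [mem_filter, mem_univ, true_and]
    constructor
    · rintro ⟨⟨_, h2⟩, h3⟩
      exact ⟨fun i => congrFun h3 i, h2⟩
    · rintro ⟨h2, h3⟩
      refine ⟨⟨⟨fun i => ?_, fun j => ?_⟩, h3⟩, funext h2⟩
      · rw [← inn_row, ← hA.2.1 i]
        exact_mod_cast Finset.sum_congr rfl fun j _ => h2 (i, j)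
      · rw [← inn_col, ← hA.2.2 j]
        exact_mod_cast Finset.sum_congr rfl fun i _ => h2 (i, j)
  · intro v hv
    simp only [coe_filter, mem_univ, true_and, Set.mem_ofPred_eq] at hv ⊢
    refine ⟨?_, fun i => ?_, fun j => ?_⟩
    · rw [mem_piAntidiag]
      exact ⟨inn_tot v, fun i _ => mem_univ i⟩
    · rw [← hv.1.1 i, inn_row]
    · rw [← hv.1.2 j, inn_col]

theorem t_INN : S_INN := by
  intro hB n k α β
  rw [Finset.sum_congr rfl fun σ _ => inn_pairs α β σ, Finset.sum_comm]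
  unfold mat
  rw [Finset.card_eq_sum_ones, Nat.cast_sum, Finset.mul_sum]
  refine Finset.sum_congr rfl fun A hA => ?_
  have hA' := (mem_piAntidiag.1 (mem_filter.1 hA).1).1
  have := hB n (Fin k × Fin k) A hA'
  rw [← Nat.cast_sum, this]
  simp

end Pool.Agent.Run7.h601.ZN
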