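import Pool.Agent.Run7.h601.ZN.Stm

/-!
# Project ZN, piece VAL: the `p`-adic valuation of the degree
-/

set_option autoImplicit false

namespace Pool.Agent.Run7.h601.ZN

open Finset

theorem val_prod {ι : Type*} (p : ℕ) [hp : Fact p.Prime] (s : Finset ι) (f : ι → ℕ)
    (hf : ∀ i ∈ s, f i ≠ 0) :
    padicValNat p (∏ i ∈ s, f i) = ∑ i ∈ s, padicValNat p (f i) := by
  classical
  induction s using Finset.induction_on with
  | empty => simp
  | insert a s ha ih =>
    rw [Finset.prod_insert ha, Finset.sum_insert ha, padicValNat.mul (hf a (by simp))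
      (Finset.prod_ne_zero_iff.2 fun i hi => hf i (by simp [hi])), ih fun i hi => hf i (by simp [hi])]

theorem val_fact (m : ℕ) : m.factorial = ∏ h ∈ Icc 1 m, h := by
  induction m with
  | zero => simp
  | succ m ih => rw [Nat.factorial_succ, ih, Finset.prod_Icc_succ_top (by omega), mul_comm]

theorem val_one (p : ℕ) [hp : Fact p.Prime] {k : ℕ} (l : Fin k → ℕ) (hl : StrictMono l)
    (a : Fin k) :
    (∑ b ∈ Iio a, (padicValNat p (l a - l b) : ℤ)) + (((l a / p : ℕ) : ℤ) -
      ((((Iio a).filter (fun b => l b % p = l a % p)).card : ℕ) : ℤ)) ≤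
      (padicValNat p (l a).factorial : ℤ) := by
  classical
  set g : ℕ → ℤ := fun h => (padicValNat p h : ℤ) - (if p ∣ h then 1 else 0) with hg
  have hinj : Set.InjOn (fun b => l a - l b) (Iio a : Finset (Fin k)) := by
    intro b hb c hc hbc
    have h1 : l b < l a := hl (mem_Iio.1 hb)
    have h2 : l c < l a := hl (mem_Iio.1 hc)
    have h3 : l a - l b = l a - l c := hbc
    exact hl.injective (by omega)
  have hsub : (Iio a).image (fun b => l a - l b) ⊆ Icc 1 (l a) := by
    intro h hh
    obtain ⟨b, hb, rfl⟩ := mem_image.1 hh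
    have h1 : l b < l a := hl (mem_Iio.1 hb)
    rw [mem_Icc]; omega
  have hnn : ∀ h ∈ Icc 1 (l a), 0 ≤ g h := by
    intro h hh
    have h0 : h ≠ 0 := by have := (mem_Icc.1 hh).1; omega
    simp only [hg]
    split_ifs with hd
    · have := one_le_padicValNat_of_dvd h0 hd
      have h2 : (1 : ℤ) ≤ (padicValNat p h : ℤ) := by exact_mod_cast this
      linarith
    · simp
  have key := Finset.sum_le_sum_of_subset_of_nonneg hsub (f := g) (fun h hh _ => hnn h hh)
  rw [Finset.sum_image hinj] at key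
  have e1 : ∑ h ∈ Icc 1 (l a), g h = (padicValNat p (l a).factorial : ℤ) - ((l a / p : ℕ) : ℤ) := by
    simp only [hg]
    rw [Finset.sum_sub_distrib]
    congr 1
    · rw [val_fact, val_prod p]
      · push_cast; rfl
      · intro i hi; have := (mem_Icc.1 hi).1; omega
    · rw [← Nat.Ioc_filter_dvd_card_eq_div, Finset.card_filter]
      push_cast
      rfl
  have e2 : ∑ b ∈ Iio a, g (l a - l b) = (∑ b ∈ Iio a, (padicValNat p (l a - l b) : ℤ)) -
      ((((Iio a).filter (fun b => l b % p = l a % p)).card : ℕ) : ℤ) := by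
    simp only [hg]
    rw [Finset.sum_sub_distrib, Finset.card_filter]
    congr 1
    push_cast
    refine Finset.sum_congr rfl fun b hb => ?_
    have h1 : l b < l a := hl (mem_Iio.1 hb)
    have h2 : p ∣ l a - l b ↔ l b % p = l a % p := by
      rw [← Nat.modEq_iff_dvd' h1.le]; rfl
    by_cases h : l b % p = l a % p
    · rw [if_pos h, if_pos (h2.2 h)]
    · rw [if_neg h, if_neg (fun h' => h (h2.1 h'))]
  rw [e1, e2] at key
  linarith

theorem t_VAL : S_VAL := by
  intro n k f p l hp hl hdeg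
  have : Fact p.Prime := ⟨hp⟩
  have hD : (f : ℤ) * ((∏ i, (l i).factorial : ℕ) : ℤ) =
      (n.factorial : ℤ) * ((∏ i, ∏ j ∈ Ioi i, (l j - l i) : ℕ) : ℤ) := by
    have := hdeg
    unfold IsDeg at this
    push_cast at this ⊢
    rw [this]
    congr 1
    refine Finset.prod_congr rfl fun i _ => Finset.prod_congr rfl fun j hj => ?_
    rw [Nat.cast_sub (hl (mem_Ioi.1 hj)).le]
  have hN : f * (∏ i, (l i).factorial) = n.factorial * (∏ i, ∏ j ∈ Ioi i, (l j - l i)) := by
    exact_mod_cast hD
  have h1 : (∏ i, (l i).factorial) ≠ 0 := Finset.prod_ne_zero_iff.2 fun i _ => (l i).factorial_ne_zero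
  have h2 : ∀ i : Fin k, (∏ j ∈ Ioi i, (l j - l i)) ≠ 0 := fun i =>
    Finset.prod_ne_zero_iff.2 fun j hj => by
      have := hl (mem_Ioi.1 hj); omega
  have h3 : (∏ i, ∏ j ∈ Ioi i, (l j - l i)) ≠ 0 := Finset.prod_ne_zero_iff.2 fun i _ => h2 i
  have hf : f ≠ 0 := by
    rintro rfl
    rw [zero_mul] at hN
    exact mul_ne_zero n.factorial_ne_zero h3 hN.symm
  have hv := congrArg (padicValNat p) hN
  rw [padicValNat.mul hf h1, padicValNat.mul n.factorial_ne_zero h3,
    val_prod p _ _ (fun i _ => (l i).factorial_ne_zero), val_prod p _ _ (fun i _ => h2 i)] at hv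
  have h4 : ∑ i : Fin k, padicValNat p (∏ j ∈ Ioi i, (l j - l i)) =
      ∑ a : Fin k, ∑ b ∈ Iio a, padicValNat p (l a - l b) := by
    have : ∀ i : Fin k, padicValNat p (∏ j ∈ Ioi i, (l j - l i)) =
        ∑ j ∈ Ioi i, padicValNat p (l j - l i) := fun i =>
      val_prod p _ _ fun j hj => by
        have := hl (mem_Ioi.1 hj); omega
    rw [Finset.sum_congr rfl fun i _ => this i]
    exact Finset.sum_comm' (by intro x y; simp)
  rw [h4] at hv
  have h5 := Finset.sum_le_sum (s := univ) fun a _ => val_one p l hl a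
  rw [Finset.sum_add_distrib, Finset.sum_sub_distrib] at h5
  have hv' : (padicValNat p f : ℤ) + ∑ a : Fin k, (padicValNat p (l a).factorial : ℤ) =
      (padicValNat p n.factorial : ℤ) + ∑ a : Fin k, ∑ b ∈ Iio a, (padicValNat p (l a - l b) : ℤ) := by
    exact_mod_cast hv
  unfold wt
  linarith

end Pool.Agent.Run7.h601.ZN
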